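import Pool.Agent.Helper98.PS.Spec

/-! PS part E2: finite subgroups normalised by `M` are trivial. -/

set_option autoImplicit false

namespace Pool.Agent.Helper48.PS

open Pool.Agent.Helper98.PS
open Pool.Agent.Helper75.PM (LF PMin Kp cm)
open scoped commutatorElement

/-- the iterated commutator series -/
def D {K : Type} [Group K] (M : Subgroup K) : ℕ → Subgroup K
  | 0 => M
  | (i + 1) => ⁅D M i, D M i⁆

lemma D_normal {K : Type} [Group K] (M : Subgroup K) (hM : M.Normal) (i : ℕ) : (D M i).Normal := by
  induction i with
  | zero => exact hM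
  | succ i ih => exact Subgroup.commutator_normal _ _

lemma D_mono {K : Type} [Group K] {M N : Subgroup K} (h : M ≤ N) (i : ℕ) : D M i ≤ D N i := by
  induction i with
  | zero => exact h
  | succ i ih => exact Subgroup.commutator_mono ih ih

lemma D_le {K : Type} [Group K] (M : Subgroup K) (hM : M.Normal) (i : ℕ) : D M i ≤ M := by
  induction i with
  | zero => exact le_rfl
  | succ i ih =>
    have := D_normal M hM i
    exact (Subgroup.commutator_le_left _ _).trans ih

lemma D_eq {K : Type} [Group K] (M : Subgroup K) (i : ℕ) :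
    D M i = (derivedSeries M i).map M.subtype := by
  induction i with
  | zero => rw [derivedSeries_zero, ← MonoidHom.range_eq_map, Subgroup.range_subtype]; rfl
  | succ i ih =>
    rw [derivedSeries_succ, Subgroup.map_commutator, ← ih]
    rfl

lemma abel_of_comm {K : Type} [Group K] {A : Subgroup K} (h : ⁅A, A⁆ = ⊥) : Abel A := by
  intro a ha b hb
  have h1 : ⁅a, b⁆ ∈ ⁅A, A⁆ := Subgroup.commutator_mem_commutator ha hb
  rw [h, Subgroup.mem_bot, commutatorElement_eq_one_iff_mul_comm] at h1
  exact h1

/-- Some term of the series centralises `E`. -/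
lemma exists_centralises {K : Type} [Group K] (hlf : LF K) (M E : Subgroup K)
    (hls : LS M) (hE : Nrm M E) (hfin : (E : Set K).Finite) :
    ∃ r, ∀ m ∈ D M r, ∀ e ∈ E, m * e = e * m := by
  classical
  have : Finite E := hfin
  let φ : M →* Equiv.Perm E :=
    { toFun := fun m =>
        { toFun := fun e => ⟨m * e * (m : K)⁻¹, hE m m.2 e e.2⟩
          invFun := fun e => ⟨(m : K)⁻¹ * e * m, by
            have h1 := hE _ (M.inv_mem m.2) e e.2
            rwa [inv_inv] at h1⟩
          left_inv := fun e => Subtype.ext (by
            change (m : K)⁻¹ * (m * e * (m : K)⁻¹) * m = e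
            group)
          right_inv := fun e => Subtype.ext (by
            change (m : K) * ((m : K)⁻¹ * e * m) * (m : K)⁻¹ = e
            group) }
      map_one' := by
        ext e
        change ((1 : M) : K) * e * ((1 : M) : K)⁻¹ = e
        simp
      map_mul' := by
        intro a b
        ext e
        change ((a * b : M) : K) * e * ((a * b : M) : K)⁻¹ = a * (b * e * (b : K)⁻¹) * (a : K)⁻¹
        rw [Subgroup.coe_mul]
        group }
  have hφ : ∀ (m : M) (e : E), ((φ m e : E) : K) = m * e * (m : K)⁻¹ := fun m e => rfl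
  -- a finite subgroup with the same image
  have hsec : ∀ y : φ.range, ∃ m : M, φ m = y := fun y => y.2
  choose g hg using hsec
  let X : Set K := Set.range fun y : φ.range => (g y : K)
  have hX : X.Finite := Set.finite_range _
  let V : Subgroup K := Subgroup.closure X
  have hVM : V ≤ M := by
    rw [Subgroup.closure_le]
    rintro _ ⟨y, rfl⟩
    exact (g y).2
  have hVs : Group.IsSolvable V := hls V hVM (hlf X hX)
  let ψ : V →* φ.range := (φ.comp (Subgroup.inclusion hVM)).codRestrict φ.range
    (fun v => ⟨_, rfl⟩)
  have hψ : Function.Surjective ψ := by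
    intro y
    refine ⟨⟨(g y : K), Subgroup.subset_closure ⟨y, rfl⟩⟩, ?_⟩
    apply Subtype.ext
    exact hg y
  have hR : Group.IsSolvable φ.range := Group.isSolvable_of_surjective hψ
  obtain ⟨r, hr⟩ := hR.solvable
  refine ⟨r, ?_⟩
  intro m hm e he
  rw [D_eq] at hm
  obtain ⟨n, hn, rfl⟩ := hm
  have h1 : φ.rangeRestrict n ∈ derivedSeries φ.range r := by
    have h2 := map_derivedSeries_le_derivedSeries φ.rangeRestrict r
    exact h2 ⟨n, hn, rfl⟩
  rw [hr, Subgroup.mem_bot] at h1
  have h3 : φ n = 1 := congrArg Subtype.val h1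
  have h4 := hφ n ⟨e, he⟩
  rw [h3] at h4
  have h5 : e = n * e * (n : K)⁻¹ := h4
  rw [eq_mul_inv_iff_mul_eq] at h5
  exact h5.symm

theorem e2 : S_E2 := by
  intro p K _ T x hG hNA M hMn hMT E hEM hME hfin
  have hlsM : LS M := fun V hV hf => hG.ls V (hV.trans hMT) hf
  obtain ⟨r, hr⟩ := exists_centralises hG.lf M E hlsM hME hfin
  let W : Subgroup K := Subgroup.normalClosure (E : Set K)
  have hW : W.Normal := Subgroup.normalClosure_normal
  have hWM : W ≤ M := Subgroup.normalClosure_le_normal hEM
  -- the term centralises `W`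
  have hc : ∀ m ∈ D M r, ∀ w ∈ W, m * w = w * m := by
    have hle : W ≤ Subgroup.centralizer (D M r : Set K) := by
      have hDn := D_normal M hMn r
      refine Subgroup.normalClosure_le_normal ?_
      intro e he
      rw [SetLike.mem_coe, Subgroup.mem_centralizer_iff]
      intro m hm
      exact hr m hm e he
    intro m hm w hw
    have h1 := hle hw
    rw [Subgroup.mem_centralizer_iff] at h1
    exact h1 m hm
  have hWr : D W r = ⊥ := by
    refine hNA _ (D_normal W hW r) ((D_le W hW r).trans (hWM.trans hMT)) ?_
    intro a ha b hb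
    exact hc a (D_mono hWM r ha) b (D_le W hW r hb)
  have hdown : ∀ i, D W i = ⊥ → D W 0 = ⊥ := by
    intro i
    induction i with
    | zero => exact id
    | succ i ih =>
      intro h
      refine ih (hNA _ (D_normal W hW i) ((D_le W hW i).trans (hWM.trans hMT)) ?_)
      exact abel_of_comm h
  have hW0 : W = ⊥ := hdown r hWr
  rw [eq_bot_iff]
  exact (Subgroup.subset_normalClosure (s := (E : Set K))).trans hW0.le

end Pool.Agent.Helper48.PS
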